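import Pool.Agent.H81.SQ.Targets

namespace Pool.Agent.H62.SQ

open Finset Pool.Agent.H36Sq Pool.Agent.H81.SQ
open scoped BigOperators

section

variable {Ω γ : Type} [Fintype Ω] [DecidableEq γ] (c : Ω → γ) (f : Ω → ℝ)

theorem fib_pos (p : Ω) : 0 < ((univ.filter (fun q => c q = c p)).card : ℝ) := by
  have : 0 < (univ.filter (fun q => c q = c p)).card :=
    Finset.card_pos.mpr ⟨p, Finset.mem_filter.mpr ⟨Finset.mem_univ _, rfl⟩⟩
  exact_mod_cast this

theorem ce_const (p q : Ω) (h : c p = c q) : ce c f p = ce c f q := by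
  rw [ce, ce, h]

theorem ce_sum (φ : Ω → ℝ) (hφ : ∀ p q, c p = c q → φ p = φ q) :
    ∑ p, f p * φ p = ∑ p, ce c f p * φ p := by
  have h1 : ∀ p, ce c f p * φ p = ∑ q, if c q = c p then
      f q * φ q / ((univ.filter (fun r => c r = c q)).card : ℝ) else 0 := by
    intro p
    rw [ce, Finset.sum_div, Finset.sum_mul, Finset.sum_filter]
    refine Finset.sum_congr rfl fun q _ => ?_
    by_cases h : c q = c p
    · rw [if_pos h, if_pos h, h, hφ q p h]; ring
    · rw [if_neg h, if_neg h]
  rw [Finset.sum_congr rfl fun p _ => h1 p, Finset.sum_comm]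
  refine Finset.sum_congr rfl fun q _ => ?_
  rw [← Finset.sum_filter, Finset.sum_const, nsmul_eq_mul]
  have h2 : (univ.filter (fun p => c q = c p)) = univ.filter (fun r => c r = c q) := by
    ext r
    simp only [Finset.mem_filter, Finset.mem_univ, true_and]
    exact eq_comm
  rw [h2, mul_div_cancel₀]
  exact (fib_pos c q).ne'

end

theorem ce_props : T_CE := by
  intro Ω γ γ' _ _ _ c c' f hcc hf
  have key : ∀ {δ : Type} [DecidableEq δ] (d : Ω → δ) (φ : Ω → ℝ),
      (∀ p q, d p = d q → φ p = φ q) → 𝔼 p, f p * φ p = 𝔼 p, ce d f p * φ p := by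
    intro δ _ d φ hφ
    rw [Fintype.expect_eq_sum_div_card, Fintype.expect_eq_sum_div_card, ce_sum d f φ hφ]
  refine ⟨?_, ce_const c f, ?_, fun φ hφ => key c φ hφ, ?_⟩
  · intro p
    have hpos := fib_pos c p
    constructor
    · exact div_nonneg (Finset.sum_nonneg fun q _ => (hf q).1) hpos.le
    · rw [ce, div_le_one hpos]
      have : ∑ q ∈ univ.filter (fun q => c q = c p), f q ≤
          ∑ _q ∈ univ.filter (fun q => c q = c p), (1:ℝ) :=
        Finset.sum_le_sum fun q _ => (hf q).2
      simpa using this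
  · have := key c (fun _ => 1) (fun _ _ _ => rfl)
    simpa using this.symm
  · have hg : ∀ p q, c' p = c' q → ce c f p = ce c f q := fun p q h =>
      ce_const c f p q (hcc p q h)
    have e1 := key c' (ce c f) hg
    have e2 := key c (ce c f) (ce_const c f)
    have e3 : 𝔼 p, ce c' f p * ce c f p = 𝔼 p, ce c f p * ce c f p := by
      rw [← e1, ← e2]
    have e4 : 𝔼 p, (ce c' f p - ce c f p) ^ 2 = 𝔼 p, (ce c' f p) ^ 2 -
        2 * 𝔼 p, ce c' f p * ce c f p + 𝔼 p, ce c f p * ce c f p := by
      rw [Finset.mul_expect, ← Finset.expect_sub_distrib, ← Finset.expect_add_distrib]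
      exact Finset.expect_congr rfl fun p _ => by ring
    have e5 : 𝔼 p, (ce c f p) ^ 2 = 𝔼 p, ce c f p * ce c f p :=
      Finset.expect_congr rfl fun p _ => by ring
    rw [e4, e3, e5]
    ring

end Pool.Agent.H62.SQ
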