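import Pool.Agent.H81.SQ.Targets

namespace Pool.Agent.H62.SQ

open Finset Pool.Agent.H36Sq Pool.Agent.H81.SQ
open scoped BigOperators

theorem orth {k : ℕ} (t : Fin k → ZMod 2) :
    ∑ γ : Fin k → ZMod 2, sg (∑ i, γ i * t i) = if t = 0 then (2:ℝ) ^ k else 0 := by
  by_cases h : t = 0
  · rw [if_pos h, h]
    simp [sg_zero]
  · rw [if_neg h]
    apply sum_sg_hom
    · intro x y
      rw [← Finset.sum_add_distrib]
      refine Finset.sum_congr rfl fun i _ => ?_
      rw [Pi.add_apply]; ring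
    · obtain ⟨j, hj⟩ := Function.ne_iff.mp h
      refine ⟨Pi.single j 1, ?_⟩
      rw [Finset.sum_eq_single j]
      · rw [Pi.single_eq_same, one_mul]; exact hj
      · intro i _ hi
        rw [Pi.single_eq_of_ne hi, zero_mul]
      · intro h; exact absurd (Finset.mem_univ _) h

theorem sg_dot_add {k : ℕ} (γ m m' : Fin k → ZMod 2) :
    sg (∑ i, γ i * (m + m') i) = sg (∑ i, γ i * m i) * sg (∑ i, γ i * m' i) := by
  rw [← sg_add, ← Finset.sum_add_distrib]
  congr 1
  refine Finset.sum_congr rfl fun i _ => ?_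
  rw [Pi.add_apply]; ring

theorem card_cube (k : ℕ) : (Fintype.card (Fin k → ZMod 2) : ℝ) = 2 ^ k := by
  rw [Fintype.card_fun, ZMod.card, Fintype.card_fin]
  push_cast; rfl

theorem inversion {k : ℕ} (φ : (Fin k → ZMod 2) → ℝ) (m : Fin k → ZMod 2) :
    φ m = ∑ γ : Fin k → ZMod 2, hat φ γ * sg (∑ i, γ i * m i) := by
  have h1 : ∀ γ : Fin k → ZMod 2, hat φ γ * sg (∑ i, γ i * m i) =
      (∑ m' : Fin k → ZMod 2, φ m' * sg (∑ i, γ i * (m' + m) i)) / 2 ^ k := by
    intro γ
    rw [hat, Fintype.expect_eq_sum_div_card, card_cube, div_mul_eq_mul_div, Finset.sum_mul]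
    congr 1
    refine Finset.sum_congr rfl fun m' _ => ?_
    rw [sg_dot_add]; ring
  rw [Finset.sum_congr rfl fun γ _ => h1 γ, ← Finset.sum_div, Finset.sum_comm]
  have h2 : ∀ m' : Fin k → ZMod 2, ∑ γ : Fin k → ZMod 2, φ m' * sg (∑ i, γ i * (m' + m) i) =
      if m' = m then φ m * 2 ^ k else 0 := by
    intro m'
    rw [← Finset.mul_sum, orth]
    have h3 : m' + m = 0 ↔ m' = m := by
      constructor
      · intro h
        have h4 : m' = -m := eq_neg_of_add_eq_zero_left h
        rw [h4]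
        ext i
        rw [Pi.neg_apply]
        have : ∀ a : ZMod 2, -a = a := by decide
        exact this _
      · intro h
        rw [h]
        ext i
        have : ∀ a : ZMod 2, a + a = 0 := by decide
        exact this _
    by_cases h : m' = m
    · rw [if_pos (h3.mpr h), if_pos h, h]
    · rw [if_neg (fun h' => h (h3.mp h')), if_neg h, mul_zero]
  rw [Finset.sum_congr rfl fun m' _ => h2 m', Finset.sum_ite_eq' Finset.univ m,
    if_pos (Finset.mem_univ _)]
  rw [mul_div_assoc, div_self (by positivity), mul_one]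

theorem fexp : T_FEXP := by
  intro k
  refine ⟨?_, inversion, ?_, ?_⟩
  · intro φ hφ γ
    rw [hat, Fintype.expect_eq_sum_div_card, abs_div, card_cube, abs_of_pos (by positivity :
      (0:ℝ) < 2 ^ k), div_le_one (by positivity), ← card_cube]
    refine le_trans (Finset.abs_sum_le_sum_abs _ _) ?_
    have : ∑ i : Fin k → ZMod 2, |φ i * sg (∑ j, γ j * i j)| ≤ ∑ _i : Fin k → ZMod 2, (1:ℝ) := by
      refine Finset.sum_le_sum fun m _ => ?_
      rw [abs_mul, abs_sg, mul_one]
      exact hφ m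
    simpa using this
  · intro φ
    rw [hat]
    refine Finset.expect_congr rfl fun m _ => ?_
    simp [sg_zero]
  · intro φ₁ φ₂ φ₃ φ₄ s
    have h1 : ∀ m₁ m₂ m₃ : Fin k → ZMod 2, φ₁ m₁ * φ₂ m₂ * φ₃ m₃ * φ₄ (m₁ + m₂ + m₃ + s) =
        ∑ γ : Fin k → ZMod 2, (hat φ₄ γ * sg (∑ i, γ i * s i)) *
          ((φ₁ m₁ * sg (∑ i, γ i * m₁ i)) * ((φ₂ m₂ * sg (∑ i, γ i * m₂ i)) *
            (φ₃ m₃ * sg (∑ i, γ i * m₃ i)))) := by
      intro m₁ m₂ m₃
      rw [inversion φ₄ (m₁ + m₂ + m₃ + s), Finset.mul_sum]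
      refine Finset.sum_congr rfl fun γ _ => ?_
      rw [sg_dot_add, sg_dot_add, sg_dot_add]; ring
    simp_rw [h1, Finset.expect_sum_comm]
    refine Finset.sum_congr rfl fun γ _ => ?_
    simp_rw [← Finset.mul_expect, ← Finset.expect_mul]
    simp only [hat]
    ring

end Pool.Agent.H62.SQ
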