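import Pool.Agent.H81.SQ.Targets

namespace Pool.Agent.H62.SQ

open Finset Pool.Agent.H36Sq Pool.Agent.H81.SQ
open scoped BigOperators

theorem coll : T_COLL := by
  intro Ω A _ _ w p U V hw hw1 hp hp1 hU hV
  set t : Ω → ℝ := fun i => ∑ a, p a * (U i a * V i a) with ht
  have h1 : ∀ i, t i ^ 2 ≤ (∑ a, p a * U i a) * (∑ a, p a * V i a) := by
    intro i
    have h0 : 0 ≤ t i := Finset.sum_nonneg fun a _ =>
      mul_nonneg (hp a) (mul_nonneg (hU i a).1 (hV i a).1)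
    have h2 : t i ≤ ∑ a, p a * U i a := Finset.sum_le_sum fun a _ =>
      mul_le_mul_of_nonneg_left (mul_le_of_le_one_right (hU i a).1 (hV i a).2) (hp a)
    have h3 : t i ≤ ∑ a, p a * V i a := Finset.sum_le_sum fun a _ =>
      mul_le_mul_of_nonneg_left (mul_le_of_le_one_left (hV i a).1 (hU i a).2) (hp a)
    rw [sq]
    exact mul_le_mul h2 h3 h0 (le_trans h0 h2)
  have h2 : (∑ i, w i * t i) ^ 2 ≤ ∑ i, w i * t i ^ 2 := by
    obtain ⟨T, hT⟩ : ∃ T, T = ∑ i, w i * t i := ⟨_, rfl⟩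
    rw [← hT]
    have h3 : 0 ≤ ∑ i, w i * (t i - T) ^ 2 :=
      Finset.sum_nonneg fun i _ => mul_nonneg (hw i) (sq_nonneg _)
    have h4 : ∑ i, w i * (t i - T) ^ 2 = ∑ i, w i * t i ^ 2 - 2 * T * ∑ i, w i * t i +
        T ^ 2 * ∑ i, w i := by
      have e : ∀ i ∈ (Finset.univ : Finset Ω), w i * (t i - T) ^ 2 =
          w i * t i ^ 2 - 2 * T * (w i * t i) + T ^ 2 * w i := by
        intro i _; ring
      rw [Finset.sum_congr rfl e, Finset.sum_add_distrib, Finset.sum_sub_distrib,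
        ← Finset.mul_sum, ← Finset.mul_sum]
    rw [h4, ← hT, hw1] at h3
    nlinarith
  refine le_trans h2 (Finset.sum_le_sum fun i _ => ?_)
  exact mul_le_mul_of_nonneg_left (h1 i) (hw i)

end Pool.Agent.H62.SQ
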